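import Pool.Agent.Q2N.Stmts

/-!
# Q2N, row FRC: the ring of right fractions
-/

set_option autoImplicit false

namespace Pool.Agent.Q2N.H25

open Pool.Agent.Q2N

theorem frc : FrcStmt := by
  intro F D _ _ _ A hore
  have one_mem : (1 : D) ∈ A := A.one_mem
  refine ⟨{ carrier := {x | ∃ a ∈ A, ∃ s ∈ A, s ≠ 0 ∧ x = a * s⁻¹}
            mul_mem' := ?_
            add_mem' := ?_
            algebraMap_mem' := ?_ }, fun x => Iff.rfl, ?_⟩
  · rintro x z ⟨a, ha, s, hs, hs0, rfl⟩ ⟨b, hb, t, ht, ht0, rfl⟩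
    by_cases hb0 : b = 0
    · refine ⟨0, A.zero_mem, 1, one_mem, one_ne_zero, ?_⟩
      rw [hb0, zero_mul, zero_mul, mul_zero]
    obtain ⟨c, hc, e, he, hc0, h⟩ := hore b hb s hs hb0 hs0
    refine ⟨a * e, A.mul_mem ha he, t * c, A.mul_mem ht hc, mul_ne_zero ht0 hc0, ?_⟩
    have h1 : s⁻¹ * b = e * c⁻¹ := by
      rw [eq_mul_inv_iff_mul_eq₀ hc0, mul_assoc, h, inv_mul_cancel_left₀ hs0]
    rw [mul_inv_rev]
    calc a * s⁻¹ * (b * t⁻¹) = a * (s⁻¹ * b) * t⁻¹ := by simp only [mul_assoc]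
      _ = a * e * (c⁻¹ * t⁻¹) := by rw [h1]; simp only [mul_assoc]
  · rintro x z ⟨a, ha, s, hs, hs0, rfl⟩ ⟨b, hb, t, ht, ht0, rfl⟩
    obtain ⟨c, hc, e, he, hc0, h⟩ := hore s hs t ht hs0 ht0
    have hu0 : s * c ≠ 0 := mul_ne_zero hs0 hc0
    refine ⟨a * c + b * e, A.add_mem (A.mul_mem ha hc) (A.mul_mem hb he), s * c,
      A.mul_mem hs hc, hu0, ?_⟩
    rw [eq_mul_inv_iff_mul_eq₀ hu0, add_mul]
    have h1 : a * s⁻¹ * (s * c) = a * c := by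
      rw [mul_assoc, inv_mul_cancel_left₀ hs0]
    have h2 : b * t⁻¹ * (s * c) = b * e := by
      rw [h, mul_assoc, inv_mul_cancel_left₀ ht0]
    rw [h1, h2]
  · intro r
    refine ⟨algebraMap F D r, A.algebraMap_mem r, 1, one_mem, one_ne_zero, ?_⟩
    rw [inv_one, mul_one]
  · rintro x ⟨a, ha, s, hs, hs0, rfl⟩
    by_cases ha0 : a = 0
    · refine ⟨0, A.zero_mem, 1, one_mem, one_ne_zero, ?_⟩
      rw [ha0, zero_mul, inv_zero, zero_mul]
    · refine ⟨s, hs, a, ha, ha0, ?_⟩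
      rw [mul_inv_rev, inv_inv]

end Pool.Agent.Q2N.H25
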